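import Pool.Agent.H71.AR.AHArr

/-!
# Absolute Hodge classes and moduli spaces of line arrangements

A moduli space of line arrangements parametrises the arrangements which consist of the four lines
`X = 0`, `Y = 0`, `Z = 0`, `X + Y + Z = 0` and of `a` lines `X + x_i Y + y_i Z = 0` and `b` lines
`Y + z_j Z = 0` in the projective plane such that exactly the triples of lines in a given set `S` are
not concurrent. `ArrAlg k N` says that `N` is the algebra of functions on such a moduli space over `k`
(it represents the functor of these arrangements) and that the lines are pairwise distinct.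

For a complex Chow motive `A` let `AH^p(A)` be the space of absolute Hodge classes in
`H^{2p}(A, ℚ(p))`: the classes which lie in `F^p` and whose conjugates `α^σ` lie in
`H^{2p}(A^σ, ℚ(p))`, for all automorphisms `σ` of `ℂ`. Let `Alg^p(A)` be the subspace which is spanned
by the classes of cycles. Then `AH^p / Alg^p` is an additive functor of complex Chow motives. For a
scheme `X` of finite type over `ℚ` the weight complex `W(X)` of Gillet and Soulé is a complex of Chow
motives over `ℚ`, so there are complexes `AH^p(W(X)_ℂ) / Alg^p(W(X)_ℂ)`.

The proof uses a form of the universality theorem of Mnëv, Sturmfels and Lafforgue which preserves the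
dimension: every integral affine scheme of finite type over `ℚ` has a non-empty smooth open subscheme
which is isomorphic to a moduli space of line arrangements (`Pool.Agent.H71.AR.exists_nice`).
-/

set_option autoImplicit false

open CategoryTheory CategoryTheory.Limits AlgebraicGeometry Pool.Agent.Y116.UV
  Pool.Agent.Y101.Th Pool.Agent.H71.AR

namespace Pool.Agent.H71.Parked.AbsoluteHodge

universe v u v' u'

/-- **Absolute Hodge classes and line arrangements.** Let `p` be a natural number.

(1) For every `d`, the spaces `AH^p(Y_ℂ)` are spanned by classes of cycles for all smooth projective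
schemes `Y` over `ℚ` of dimension at most `d` if and only if the complexes
`AH^p(W(N)_ℂ) / Alg^p(W(N)_ℂ)` are exact for all smooth integral moduli spaces `N` of line arrangements
over `ℚ` of dimension at most `d`.

(2) The spaces `AH^p(X)` are spanned by classes of cycles for all smooth projective complex schemes `X`
if and only if these complexes are exact for all smooth integral moduli spaces `N` of line arrangements
over `ℚ`. -/
theorem result
    -- the Chow motives over `ℚ` and the weight complexes
    {M : Type u'} [Category.{v'} M] [Preadditive M] [HasZeroObject M] [HasBinaryBiproducts M]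
    {D : WeightData ℚ M} (hD : IsWeight D)
    -- the complex Chow motives and their cohomology
    {𝓒 : Type u} [Category.{v} 𝓒] [Preadditive 𝓒] {T : HodgeData.{v, u} 𝓒}
    (hT : CyclesAreAbsolute T)
    -- the base change functor
    (b : M ⥤ 𝓒) [b.Additive] (hb : IsBaseC D T b) (p : ℕ) :
    (∀ d : ℕ, (∀ Y : Sch ℚ, SmProj Y → topologicalKrullDim Y.left ≤ d →
      Spanned hT p (T.h (baseC Y))) ↔ AHExact D hT b p d) ∧
    (Spreading T p →
      ((∀ X : Sch ℂ, SmProj X → Spanned hT p (T.h X)) ↔ ∀ d : ℕ, AHExact D hT b p d)) :=
  ⟨fun d => ah_dim hD hT hb p d, fun hs => ah_all hD hT hb p hs⟩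

end Pool.Agent.H71.Parked.AbsoluteHodge
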